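import Mathlib
import Pool.Agent.X307.Sf
import Pool.Agent.Y723.QT.MainD
import Pool.Agent.Y676.Tsm
import Pool.Agent.Y660.TS.Rnk
import Pool.Agent.Y660.TS.Mom
import Pool.Agent.Y46.KEY.Key
import Pool.Agent.Y667.RZ.Sha
import Pool.Agent.W307.RT.Tors

/-!
# Abel–Jacobi maps onto Bloch–Kato Selmer groups over quadratic fields, for almost all elliptic curves

All the elliptic curves `E` over `ℚ` with full rational 2-torsion, ordered by height, over the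
quadratic fields `K = ℚ(√(d q))` with `d ≠ 0` a fixed integer and `q` a prime of polylogarithmic size.
For almost all `E` (and almost all the `k`-tuples) there is a positive proportion of primes `q` such that
the 2-adic Abel–Jacobi map `ℚ₂ ⊗ E(K) → H¹_f(K, V₂ E)` is an isomorphism if and only if
`ℚ₂ ⊗ E(ℚ) → H¹_f(ℚ, V₂ E)` is one, `rank E(K) = rank E(ℚ)` and `H¹_f(K, V₂ E) ≅ H¹_f(ℚ, V₂ E)`.
For a positive proportion of the `E` and of the `q` both sides over `K` are zero.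
-/

set_option autoImplicit false

namespace Pool.Agent.Results.MP_787500_nt.AlmostAllQuadratic

open Finset

open Pool.Agent.X307 (AJIso H1f V)

open Pool.Agent.TH841.SH.D (Pt)

/-- the curve `y² = x³ + A x + B` over `K`, `c = (A, B)` -/
def E (K : Type) [Field K] (c : ℤ × ℤ) : WeierstrassCurve K := ⟨0, 0, 0, (c.1 : K), (c.2 : K)⟩

open Classical in
/-- The pairs `(A, B)` of integers such that `4 A³ + 27 B² ≠ 0`, there is no prime `p` with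
`p⁴ ∣ A` and `p⁶ ∣ B`, the height `max (4 |A|³) (27 B²)` is at most `H`, and `Z/2 x Z/2` embeds in
the group of the rational points of `y² = x³ + A x + B`. (The bounds `|A|, |B| ≤ H` follow from the
bound of the height. Every elliptic curve over `ℚ` is isomorphic to `E ℚ (A, B)` for exactly one pair
with the first two properties.) -/
noncomputable def Fam (H : ℕ) : Finset (ℤ × ℤ) :=
  ((Icc (-(H : ℤ)) H) ×ˢ (Icc (-(H : ℤ)) H)).filter (fun c : ℤ × ℤ =>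
    4 * c.1 ^ 3 + 27 * c.2 ^ 2 ≠ 0 ∧ 4 * |c.1| ^ 3 ≤ H ∧ 27 * c.2 ^ 2 ≤ H ∧
    (∀ p : ℕ, p.Prime → ¬ ((p : ℤ) ^ 4 ∣ c.1 ∧ (p : ℤ) ^ 6 ∣ c.2)) ∧
    ∃ f : ZMod 2 × ZMod 2 →+ (E ℚ c).toAffine.Point, Function.Injective f)

/-- `K = ℚ(√d)` -/
def IsSqrtField (d : ℤ) (K : Type) [Field K] [NumberField K] : Prop :=
  ∃ r : K, r ^ 2 = (d : K) ∧ IntermediateField.adjoin ℚ {r} = ⊤

/-- For the curve `E`, the prime `2` and the field `K = ℚ(√m)`:
* the Abel–Jacobi map `ℚ₂ ⊗ E(K) → H¹_f(K, V₂ E)` is an isomorphism if and only if the Abel–Jacobi map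
  `ℚ₂ ⊗ E(ℚ) → H¹_f(ℚ, V₂ E)` is an isomorphism;
* the ranks of `E(K)` and `E(ℚ)` are equal;
* the vector spaces `H¹_f(K, V₂ E)` and `H¹_f(ℚ, V₂ E)` over `ℚ₂` are isomorphic. -/
def StableBK (m : ℤ) (c : ℤ × ℤ) : Prop :=
  ∀ (K : Type) [Field K] [NumberField K], IsSqrtField m K →
    (AJIso 2 (E K c) ↔ AJIso 2 (E ℚ c)) ∧
    Module.finrank ℤ (Pt (E K c) K) = Module.finrank ℤ (Pt (E ℚ c) ℚ) ∧
    Nonempty (H1f 2 (E K c) ≃ₗ[ℚ_[2]] H1f 2 (E ℚ c))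

/-- For the curve `E`, the prime `2` and the field `K = ℚ(√m)`: the Abel–Jacobi map
`ℚ₂ ⊗ E(K) → H¹_f(K, V₂ E)` is an isomorphism, `H¹_f(K, V₂ E) = 0` and the rank of `E(K)` is zero. -/
def ZeroBK (m : ℤ) (c : ℤ × ℤ) : Prop :=
  ∀ (K : Type) [Field K] [NumberField K], IsSqrtField m K →
    AJIso 2 (E K c) ∧ (∀ x : H1f 2 (E K c), x = 0) ∧ Module.finrank ℤ (Pt (E K c) K) = 0

open Classical in
/-- the number of the primes `q ≤ Q` such that `StableBK (dᵢ q) Eᵢ` for all the curves of the tuple -/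
noncomputable def countStable {k : ℕ} (d : Fin k → ℤ) (Q : ℕ) (x : Fin k → ℤ × ℤ) : ℕ :=
  ((Icc 1 Q).filter (fun q : ℕ => q.Prime ∧ ∀ i, StableBK (d i * q) (x i))).card

open Classical in
/-- the number of the primes `q ≤ Q` such that `ZeroBK (dᵢ q) Eᵢ` for all the curves of the tuple -/
noncomputable def countZero {k : ℕ} (d : Fin k → ℤ) (Q : ℕ) (x : Fin k → ℤ × ℤ) : ℕ :=
  ((Icc 1 Q).filter (fun q : ℕ => q.Prime ∧ ∀ i, ZeroBK (d i * q) (x i))).card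

lemma Fam_eq (H : ℕ) : Fam H = Pool.Agent.W307.RT.Cv 2 H := by
  classical
  unfold Fam Pool.Agent.W307.RT.Cv
  apply filter_congr
  intro c _
  have h : Pool.Agent.W307.RT.HasT 2 (Pool.Agent.W307.RT.Sh c.1 c.2) ↔
      ∃ f : ZMod 2 × ZMod 2 →+ (E ℚ c).toAffine.Point, Function.Injective f :=
    Pool.Agent.W307.RT.tors_iff
  rw [h]

/-- a curve of the family: the discriminant and a root -/
lemma mem_fam {H : ℕ} {c : ℤ × ℤ} (hc : c ∈ Pool.Agent.W307.RT.Cv 2 H) :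
    4 * c.1 ^ 3 + 27 * c.2 ^ 2 ≠ 0 ∧
    Pool.Agent.W307.RT.HasT 2 (Pool.Agent.W307.RT.Sh c.1 c.2) ∧
    ∃ e : ℤ, e ^ 3 + c.1 * e + c.2 = 0 := by
  classical
  obtain ⟨Φ, -, hΦ⟩ := Pool.Agent.W513.FK.parf
  unfold Pool.Agent.W307.RT.Cv at hc
  obtain ⟨_, a1, a2, _, _, a3⟩ := mem_filter.1 hc
  obtain ⟨-, -, -, -, -, e1, e2, e3, he, -, -⟩ := hΦ c a1 a3
  refine ⟨a1, a3, e1, ?_⟩
  rw [he]
  ring

lemma tr_of {q : ℕ} {d : ℤ} {c : ℤ × ℤ} (h : Pool.Agent.Y676.Triv q (d ^ 2 * c.1, d ^ 3 * c.2)) :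
    Pool.Agent.Y723.QT.Tr ((d * q) ^ 2 * c.1) ((d * q) ^ 3 * c.2) := by
  have e1 : (d * q) ^ 2 * c.1 = (q : ℤ) ^ 2 * (d ^ 2 * c.1) := by ring
  have e2 : (d * q) ^ 3 * c.2 = (q : ℤ) ^ 3 * (d ^ 3 * c.2) := by ring
  rw [e1, e2]
  refine ⟨h.1, fun k x hx => ?_⟩
  have h1 : Subsingleton (Pool.Agent.TH841.SH.D.ShaTor (Pool.Agent.W307.RT.Sh
      ((q : ℤ) ^ 2 * (d ^ 2 * c.1)) ((q : ℤ) ^ 3 * (d ^ 3 * c.2))) (2 ^ k)) := h.2 k
  have h2 := @Subsingleton.elim _ h1 ⟨x, hx⟩ ⟨0, smul_zero _⟩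
  rw [pow_zero, one_smul]
  exact congrArg Subtype.val h2

lemma stable_of {H q : ℕ} {d : ℤ} {c : ℤ × ℤ} (hc : c ∈ Pool.Agent.W307.RT.Cv 2 H) (hq : q.Prime)
    (hd : d ≠ 0) (h : Pool.Agent.Y676.Triv q (d ^ 2 * c.1, d ^ 3 * c.2)) :
    StableBK (d * q) c := by
  obtain ⟨hD, -, e, he⟩ := mem_fam hc
  intro K _ _ hK
  exact Pool.Agent.X307.bk_stable hD he
    (mul_ne_zero hd (by exact_mod_cast hq.ne_zero)) (tr_of h) K hK

lemma zero_of {H q : ℕ} {d : ℤ} {c : ℤ × ℤ} (hc : c ∈ Pool.Agent.W307.RT.Cv 2 H) (hq : q.Prime)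
    (hd : d ≠ 0) (h0 : Pool.Agent.Y723.QT.Tr c.1 c.2)
    (h : Pool.Agent.Y676.Triv q (d ^ 2 * c.1, d ^ 3 * c.2)) : ZeroBK (d * q) c := by
  obtain ⟨hD, -, e, he⟩ := mem_fam hc
  intro K _ _ hK
  obtain ⟨h1, -, h3⟩ := Pool.Agent.Y723.QT.triv2 hD he
    (mul_ne_zero hd (by exact_mod_cast hq.ne_zero)) h0 (tr_of h) K hK
  exact Pool.Agent.X307.bk_zero hD he h1 h3

open Classical in
/-- a positive proportion of the tuples -/
lemma many (k : ℕ) : ∃ δ : ℝ, 0 < δ ∧ ∃ H₀ : ℕ, ∀ H : ℕ, H₀ ≤ H →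
    δ * ((Fam H).card : ℝ) ^ k ≤ (((Pool.Agent.Y676.CT k H).filter (fun x : Fin k → ℤ × ℤ =>
      ∀ i, Pool.Agent.Y723.QT.Tr (x i).1 (x i).2)).card : ℝ) := by
  obtain ⟨c, hc, H0, h⟩ := Pool.Agent.Y667.RZ.curvesW
  refine ⟨c ^ k, by positivity, H0, fun H hH => ?_⟩
  have h1 : c * ((Fam H).card : ℝ) ≤ (((Pool.Agent.W307.RT.Cv 2 H).filter (fun t : ℤ × ℤ =>
      Pool.Agent.Y723.QT.Tr t.1 t.2)).card : ℝ) := by
    rw [Fam_eq]
    refine (h H hH).1.trans (Nat.cast_le.2 (card_le_card fun t ht => ?_))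
    rw [mem_filter] at ht ⊢
    obtain ⟨hD, hT, -⟩ := mem_fam ht.1
    obtain ⟨g1, g2⟩ := Pool.Agent.Y667.SHA.sha_zero4 hD hT ht.2.1 ht.2.2.1.le
    exact ⟨ht.1, g1, fun j x hx => by rw [pow_zero, one_smul]; exact g2 j x hx⟩
  have h2 : (Pool.Agent.Y676.CT k H).filter (fun x : Fin k → ℤ × ℤ =>
      ∀ i, Pool.Agent.Y723.QT.Tr (x i).1 (x i).2) =
      Fintype.piFinset (fun _ : Fin k => (Pool.Agent.W307.RT.Cv 2 H).filter (fun t : ℤ × ℤ =>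
        Pool.Agent.Y723.QT.Tr t.1 t.2)) := by
    ext x
    unfold Pool.Agent.Y676.CT
    simp only [mem_filter, Fintype.mem_piFinset]
    exact ⟨fun h i => ⟨h.1 i, h.2 i⟩, fun h => ⟨fun i => (h i).1, fun i => (h i).2⟩⟩
  rw [h2, Fintype.card_piFinset, prod_const, card_univ, Fintype.card_fin, ← mul_pow]
  push_cast
  exact pow_le_pow_left₀ (by positivity) h1 k

open Classical in
/-- **Theorem.** For every `k` there are constants `C` and `δ > 0` such that for all nonzero integers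
`d₁, …, d_k` and every `ε > 0` there is a constant `c > 0` such that for all large `H` and all
`Q ≥ (log H) ^ C` the following holds for the `k`-tuples `(E₁, …, E_k)` of the elliptic curves over `ℚ`
with full rational 2-torsion and height at most `H`.
(1) For all but at most `ε * (#Fam H) ^ k` tuples there are at least `c * Q / log Q` primes `q ≤ Q`
such that for all `i` and `K = ℚ(√(dᵢ q))` the Abel–Jacobi map `ℚ₂ ⊗ Eᵢ(K) → H¹_f(K, V₂ Eᵢ)` is an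
isomorphism if and only if `ℚ₂ ⊗ Eᵢ(ℚ) → H¹_f(ℚ, V₂ Eᵢ)` is one, `rank Eᵢ(K) = rank Eᵢ(ℚ)`, and
`H¹_f(K, V₂ Eᵢ)` and `H¹_f(ℚ, V₂ Eᵢ)` are isomorphic.
(2) For at least `δ * (#Fam H) ^ k` tuples there are at least `c * Q / log Q` primes `q ≤ Q` such that
for all `i` and `K = ℚ(√(dᵢ q))` the Abel–Jacobi map of `Eᵢ` over `K` is an isomorphism and
`H¹_f(K, V₂ Eᵢ) = 0`. -/
theorem result : ∀ k : ℕ, ∃ (C : ℕ) (δ : ℝ), 0 < δ ∧ ∀ d : Fin k → ℤ, (∀ i, d i ≠ 0) →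
    ∀ ε : ℝ, 0 < ε → ∃ c : ℝ, 0 < c ∧
    ∃ H₀ : ℕ, ∀ H : ℕ, H₀ ≤ H → ∀ Q : ℕ, (Real.log H) ^ C ≤ Q →
    (((Fintype.piFinset (fun _ : Fin k => Fam H)).filter (fun x : Fin k → ℤ × ℤ =>
      ¬ c * Q / Real.log Q ≤ (countStable d Q x : ℝ))).card : ℝ) ≤ ε * ((Fam H).card : ℝ) ^ k ∧
    δ * ((Fam H).card : ℝ) ^ k ≤
      (((Fintype.piFinset (fun _ : Fin k => Fam H)).filter (fun x : Fin k → ℤ × ℤ =>
        c * Q / Real.log Q ≤ (countZero d Q x : ℝ))).card : ℝ) := by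
  intro k
  obtain ⟨δ, hδ, H₁, hδ1⟩ := many k
  refine ⟨Pool.Agent.Y676.CE k + 1, δ / 2, by positivity, fun d hd ε hε => ?_⟩
  obtain ⟨c, hc, H₂, hm⟩ : ∃ c : ℝ, 0 < c ∧ ∃ H₂ : ℕ, ∀ H : ℕ, H₂ ≤ H → ∀ Q : ℕ,
      (Real.log H) ^ (Pool.Agent.Y676.CE k + 1) ≤ Q →
      (((Pool.Agent.Y676.CT k H).filter (fun x => ¬ c * Q / Real.log Q ≤
        ((Pool.Agent.Y723.QT.TQD d Q x).card : ℝ))).card : ℝ) ≤
        min ε (δ / 2) * ((Fam H).card : ℝ) ^ k := by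
    simp only [Fam_eq]
    exact Pool.Agent.Y723.QT.mainD
      (Pool.Agent.Y46.KEY.key_of Pool.Agent.Y660.TS.rnk Pool.Agent.Y676.Tsm.tsm)
      Pool.Agent.Y660.TS.mom k d hd _ (lt_min (by positivity) (by positivity))
  refine ⟨c, hc, H₁ + H₂, fun H hH Q hQ => ?_⟩
  have hN : (0 : ℝ) ≤ ((Fam H).card : ℝ) ^ k := by positivity
  have hmH := hm H (by omega) Q hQ
  obtain ⟨B, hB⟩ : ∃ B : Finset (Fin k → ℤ × ℤ), B = (Pool.Agent.Y676.CT k H).filter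
    (fun x => ¬ c * Q / Real.log Q ≤
        ((Pool.Agent.Y723.QT.TQD d Q x).card : ℝ)) := ⟨_, rfl⟩
  rw [← hB] at hmH
  have hb : (B.card : ℝ) ≤ ε * ((Fam H).card : ℝ) ^ k :=
    hmH.trans (mul_le_mul_of_nonneg_right (min_le_left _ _) hN)
  have hb' : (B.card : ℝ) ≤ δ / 2 * ((Fam H).card : ℝ) ^ k :=
    hmH.trans (mul_le_mul_of_nonneg_right (min_le_right _ _) hN)
  have hCT : (Fintype.piFinset (fun _ : Fin k => Fam H)) = Pool.Agent.Y676.CT k H := by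
    unfold Pool.Agent.Y676.CT
    rw [Fam_eq]
  have hmem : ∀ x ∈ Pool.Agent.Y676.CT k H, ∀ i, x i ∈ Pool.Agent.W307.RT.Cv 2 H := by
    intro x hx i
    unfold Pool.Agent.Y676.CT at hx
    exact Fintype.mem_piFinset.1 hx i
  have hTQ : ∀ (x : Fin k → ℤ × ℤ) (q : ℕ),
      q ∈ Pool.Agent.Y723.QT.TQD d Q x → q ∈ Icc 1 Q ∧ q.Prime ∧
        ∀ i, Pool.Agent.Y676.Triv q (d i ^ 2 * (x i).1, d i ^ 3 * (x i).2) := by
    intro x q hq
    unfold Pool.Agent.Y723.QT.TQD at hq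
    exact mem_filter.1 hq
  rw [hCT]
  refine ⟨?_, ?_⟩
  · have h3 : (((Pool.Agent.Y676.CT k H).filter (fun x : Fin k → ℤ × ℤ =>
        ¬ c * Q / Real.log Q ≤ (countStable d Q x : ℝ))).card : ℝ) ≤ (B.card : ℝ) := by
      refine Nat.cast_le.2 (card_le_card fun x hx => ?_)
      rw [mem_filter] at hx
      rw [hB, mem_filter]
      refine ⟨hx.1, fun h => hx.2 (h.trans (Nat.cast_le.2 (card_le_card fun q hq => ?_)))⟩
      obtain ⟨g1, g2, g3⟩ := hTQ x q hq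
      rw [mem_filter]
      exact ⟨g1, g2, fun i => stable_of (hmem x hx.1 i) g2 (hd i) (g3 i)⟩
    linarith
  · have h3 := hδ1 H (by omega)
    have h4 : (((Pool.Agent.Y676.CT k H).filter (fun x : Fin k → ℤ × ℤ =>
        ∀ i, Pool.Agent.Y723.QT.Tr (x i).1 (x i).2)).card : ℝ) ≤
        (((Pool.Agent.Y676.CT k H).filter (fun x : Fin k → ℤ × ℤ =>
          c * Q / Real.log Q ≤ (countZero d Q x : ℝ))).card : ℝ) + (B.card : ℝ) := by
      rw [← Nat.cast_add]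
      refine Nat.cast_le.2 ((card_le_card fun x hx => ?_).trans (card_union_le _ _))
      rw [mem_filter] at hx
      rw [mem_union, mem_filter, hB, mem_filter]
      by_cases h : c * Q / Real.log Q ≤ ((Pool.Agent.Y723.QT.TQD d Q x).card : ℝ)
      · left
        refine ⟨hx.1, h.trans (Nat.cast_le.2 (card_le_card fun q hq => ?_))⟩
        obtain ⟨g1, g2, g3⟩ := hTQ x q hq
        rw [mem_filter]
        exact ⟨g1, g2, fun i => zero_of (hmem x hx.1 i) g2 (hd i) (hx.2 i) (g3 i)⟩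
      · exact Or.inr ⟨hx.1, h⟩
    linarith

end Pool.Agent.Results.MP_787500_nt.AlmostAllQuadratic
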