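import Pool.Agent.X307.NR.TwB
import Pool.Agent.X307.NR.GalR

/-!
# Norm relations and minimal counterexamples for the Abel–Jacobi maps of elliptic curves

`E : y² = x³ + A x + B` is an elliptic curve over `ℚ`, `E^d : y² = x³ + d² A x + d³ B` its quadratic twist
by the rational number `d ≠ 0`, `p` a prime number, `F` a number field with automorphism group `G`, and
`AJ(E/F) : ℚ_p ⊗ E(F) → H¹_f(F, V_p E)` the `p`-adic Abel–Jacobi map of `E` over `F`. A root is an element
`r ≠ 0` of `F` such that `r² = d` is rational; then `g r = ± r` for `g` in `G`, and this sign is `s_r(g)`.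

(1) If `AJ(E/F)` is an isomorphism then so is `AJ(E/M)` for all subfields `M` of `F`. If `r` is a root and
`r² = d`, then `AJ(E/F)` is an isomorphism if and only if `AJ(E^d/F)` is one.

(2) Let `U_i` and `H` be subgroups of `G` and `r_i` roots, `r_i² = d_i`, with a norm relation
`N_H = ∑_j a_j N_{s(j)} b_j` in `ℚ[G]`; here `N_H` is the sum of the elements of `H`, and `N_i` is the sum
of the `s_{r_i}(u) u` with `u` in `U_i`. If `AJ(E^{d_i}/F^{U_i})` is an isomorphism for all `i`, then
`AJ(E/F^H)` is one. If `H = 1`, then `AJ(E/F)` is an isomorphism if and only if all the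
`AJ(E^{d_i}/F^{U_i})` are.

(3) Let `c` be an element of `G` with `c² = 1`, and `[G, c]` the subgroup generated by the elements
`g c g⁻¹ c⁻¹`. Then `AJ(E/F)` is an isomorphism if and only if it is so over the fixed fields of `c` and of
`[G, c]`. If `c` is in `[G, c]`, then this is so if and only if it is so over the fixed field of `c`. If
there is a root `r` with `c r ≠ r`, `r² = d`, then this is so if and only if `AJ(E/F^c)` and `AJ(E^d/F^c)`
are isomorphisms.

(4) If `G` has a non-cyclic subgroup of order `q r` for prime numbers `q` and `r`, or a non-cyclic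
commutative subgroup, or two elements of order two, then `AJ(E/F)` is an isomorphism if and only if it is
one over the fixed fields of all the subgroups of prime order.

(5) If `AJ(E/F)` is not an isomorphism, then there are a subfield `M` of `F` and a `d` such that
`AJ(E^d/M)` is not an isomorphism, `AJ(E^{d'}/K)` is an isomorphism for all `d'` and all proper subfields
`K` of `M`; for the automorphism group of `M` there is no norm relation as in (2) with `H = 1` and all
`U_i ≠ 1`; in particular it has no subgroup as in (4), and its involutions fix all the roots in `M`. If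
`M` is a Galois extension of `ℚ` of even degree, then the degree is divisible by `4`.

(6) Let `δ(E/M) = dim H¹_f(M, V_p E) - rank E(M)`, the dimension of the cokernel of `AJ(E/M)`. If
`∑_j m_j s_{r_j}(g) #(G/H_j)^g = 0` for all `g` in `G` (subgroups `H_j`, roots `r_j`, integers `m_j`), that
is, the virtual representation `∑_j m_j Ind_{H_j}^G s_{r_j}` has character zero, then
`∑_j m_j δ(E^{d_j}/F^{H_j}) = 0`, where `d_j = r_j²`. This assumes that `H¹_f(F, V_p E)` has a finite
dimension.

(7) For `p = 2` the space `H¹_f(F, V_2 E)` has a finite dimension, for all `E` and `F`.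

Proof. The cokernel of `AJ(E/F)` is the rational Tate module `V_p Ш(E / F)`, and `AJ(E/F)` is injective.
With continuous cocycles of the subgroups of `Gal(ℚ̄/ℚ)` one has restriction, corestriction and the action
of `G` on `V_p Ш(E / F)`; the norm of a vector for a subgroup `H` of `G` comes from `V_p Ш(E / F^H)`, and
the trace of this norm is `#H dim V_p Ш(E / F^H)`. A root `r` gives an isomorphism of `V_p Ш(E / F)` and
`V_p Ш(E^d / F)` which changes the action by `s_r`.
-/

set_option autoImplicit false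

namespace Pool.Agent.Results.MP_787500_nt.NormRelations

open Module

open Pool.Agent.X307 (AJIso H1f)

open Pool.Agent.TH841.SH.D (Pt)

/-- the curve `y² = x³ + A x + B` over `F` -/
def EF (A B : ℚ) (F : Type) [Field F] : WeierstrassCurve F := ⟨0, 0, 0, (A : F), (B : F)⟩

/-- the quadratic twist by `d` -/
def ET (A B d : ℚ) (F : Type) [Field F] : WeierstrassCurve F := EF (d ^ 2 * A) (d ^ 3 * B) F

/-- `r ≠ 0` is a square root of the rational number `d` -/
def IsRoot {F : Type} [Field F] (r : F) (d : ℚ) : Prop := r ≠ 0 ∧ r ^ 2 = (d : F)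

open Classical in
/-- the sum of the elements of the subgroup `H` in the group ring `ℚ[G]` -/
noncomputable def N {G : Type} [Group G] [Fintype G] (H : Subgroup G) : MonoidAlgebra ℚ G :=
  ∑ g : G with g ∈ H, MonoidAlgebra.single g 1

open Classical in
/-- the sum of the `s_r(u) u`, `u` in `U`, in the group ring: `s_r(u) = 1` if `u r = r`, and `-1`
otherwise -/
noncomputable def NS {F : Type} [Field F] [NumberField F] (r : F) (U : Subgroup (F ≃ₐ[ℚ] F)) :
    MonoidAlgebra ℚ (F ≃ₐ[ℚ] F) :=
  ∑ g : F ≃ₐ[ℚ] F with g ∈ U, MonoidAlgebra.single g (if g r = r then 1 else -1)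

/-- a norm relation: `N_H` is in the two-sided ideal generated by the `NS (r i) (U i)` -/
def NormRelation {F : Type} [Field F] [NumberField F] {ι : Type} (H : Subgroup (F ≃ₐ[ℚ] F))
    (U : ι → Subgroup (F ≃ₐ[ℚ] F)) (r : ι → F) : Prop :=
  ∃ (n : ℕ) (a b : Fin n → MonoidAlgebra ℚ (F ≃ₐ[ℚ] F)) (s : Fin n → ι),
    N H = ∑ j, a j * NS (r (s j)) (U (s j)) * b j

/-- the subgroup `[G, c]` generated by the elements `g c g⁻¹ c⁻¹` -/
def Comms {G : Type} [Group G] (c : G) : Subgroup G :=
  Subgroup.closure {x | ∃ g : G, x = g * c * g⁻¹ * c⁻¹}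

/-- the conditions on a group: the subgroups of order `q r` and the commutative subgroups are cyclic, and
there is at most one element of order two -/
def GroupCondition (G : Type) [Group G] : Prop :=
  (∀ (H : Subgroup G) (q r : ℕ), q.Prime → r.Prime → Nat.card H = q * r → IsCyclic H) ∧
  (∀ H : Subgroup G, (∀ a ∈ H, ∀ b ∈ H, a * b = b * a) → IsCyclic H) ∧
  ∀ σ τ : G, orderOf σ = 2 → orderOf τ = 2 → σ = τ

open Classical in
/-- The integers `m j`, the subgroups `H j` and the roots `r j` are a Brauer relation: for all `g` the sum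
of the `m j` times the sign of `g` on `r j` times the number of the fixed points of `g` on `G / H j` is
zero. -/
def BrauerRelation {F J : Type} [Field F] [NumberField F] [Fintype J]
    (H : J → Subgroup (F ≃ₐ[ℚ] F)) (r : J → F) (m : J → ℤ) : Prop :=
  ∀ g : F ≃ₐ[ℚ] F, ∑ j, m j * ((if g (r j) = r j then 1 else -1) *
    (Nat.card {q : (F ≃ₐ[ℚ] F) ⧸ H j // g • q = q} : ℤ)) = 0

/-- `δ = dim H¹_f(F, V_p W) - rank W(F)` -/
noncomputable def defect (p : ℕ) [Fact p.Prime] {F : Type} [Field F] [NumberField F]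
    (W : WeierstrassCurve F) : ℤ :=
  (finrank ℚ_[p] (H1f p W) : ℤ) - (finrank ℤ (Pt W F) : ℤ)

lemma et_et (A B d d' : ℚ) (F : Type) [Field F] :
    ET (d ^ 2 * A) (d ^ 3 * B) d' F = ET A B (d' * d) F := by
  have h1 : d' ^ 2 * (d ^ 2 * A) = (d' * d) ^ 2 * A := by ring
  have h2 : d' ^ 3 * (d ^ 3 * B) = (d' * d) ^ 3 * B := by ring
  unfold ET
  rw [h1, h2]

lemma et_one (A B : ℚ) (F : Type) [Field F] : ET A B 1 F = EF A B F := by
  unfold ET
  rw [one_pow, one_pow, one_mul, one_mul]

open Pool.Agent.X307.NR in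
/-- the case `H = 1` -/
lemma rel_bot {p : ℕ} [Fact p.Prime] {A B : ℚ} (hAB : 4 * A ^ 3 + 27 * B ^ 2 ≠ 0) (F : Type)
    [Field F] [NumberField F] {ι : Type} (U : ι → Subgroup (F ≃ₐ[ℚ] F)) (r : ι → F) (d : ι → ℚ)
    (hr : ∀ i, IsRoot (r i) (d i)) (hH : NormRelation ⊥ U r)
    (h : ∀ i, AJIso p (ET A B (d i) (IntermediateField.fixedField (U i)))) :
    AJIso p (EF A B F) := by
  have h2 : AJIso p (EF A B (IntermediateField.fixedField (⊥ : Subgroup (F ≃ₐ[ℚ] F)))) :=
    aj_relx hAB F ⊥ U r d (fun i => (hr i).2) (fun i => (hr i).1) hH h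
  have h3 : ∀ y : F, y ∈ IntermediateField.fixedField (⊥ : Subgroup (F ≃ₐ[ℚ] F)) := by
    intro y g
    have h4 : (g : F ≃ₐ[ℚ] F) = 1 := Subgroup.mem_bot.1 g.2
    change (g : F ≃ₐ[ℚ] F) y = y
    rw [h4]
    rfl
  exact aj_sub hAB (RingHom.codRestrict (RingHom.id F)
    (IntermediateField.fixedField (⊥ : Subgroup (F ≃ₐ[ℚ] F))).toSubfield h3) h2

/-- the fixed field of a nontrivial subgroup is smaller -/
lemma fixed_lt {F : Type} [Field F] [NumberField F] {U : Subgroup (F ≃ₐ[ℚ] F)} (hU : U ≠ ⊥) :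
    finrank ℚ (IntermediateField.fixedField U) < finrank ℚ F := by
  have h1 : finrank (IntermediateField.fixedField U) F = Nat.card U :=
    IntermediateField.finrank_fixedField_eq_card U
  have h2 := Module.finrank_mul_finrank ℚ (IntermediateField.fixedField U) F
  have h3 : 2 ≤ Nat.card U := by
    by_contra hcon
    have h5 : 0 < Nat.card U := Nat.card_pos
    exact hU (Subgroup.card_eq_one.1 (by omega))
  have h4 : 0 < finrank ℚ (IntermediateField.fixedField U) := finrank_pos
  rw [← h2, h1]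
  nlinarith

open Pool.Agent.X307.NR in
/-- **Main result.** -/
theorem result (p : ℕ) [Fact p.Prime] (A B : ℚ) (hAB : 4 * A ^ 3 + 27 * B ^ 2 ≠ 0) (F : Type)
    [Field F] [NumberField F] :
    ((∀ (M : Type) [Field M] [NumberField M], Nonempty (M →+* F) → AJIso p (EF A B F) →
      AJIso p (EF A B M)) ∧
      ∀ (r : F) (d : ℚ), IsRoot r d → (AJIso p (EF A B F) ↔ AJIso p (ET A B d F))) ∧
    (∀ (ι : Type) (H : Subgroup (F ≃ₐ[ℚ] F)) (U : ι → Subgroup (F ≃ₐ[ℚ] F)) (r : ι → F)
      (d : ι → ℚ), (∀ i, IsRoot (r i) (d i)) → NormRelation H U r →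
      ((∀ i, AJIso p (ET A B (d i) (IntermediateField.fixedField (U i)))) →
        AJIso p (EF A B (IntermediateField.fixedField H))) ∧
      (H = ⊥ → (AJIso p (EF A B F) ↔
        ∀ i, AJIso p (ET A B (d i) (IntermediateField.fixedField (U i)))))) ∧
    (∀ c : F ≃ₐ[ℚ] F, c * c = 1 → (AJIso p (EF A B F) ↔
        AJIso p (EF A B (IntermediateField.fixedField (Subgroup.zpowers c))) ∧
        AJIso p (EF A B (IntermediateField.fixedField (Comms c)))) ∧
      (c ∈ Comms c → (AJIso p (EF A B F) ↔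
        AJIso p (EF A B (IntermediateField.fixedField (Subgroup.zpowers c))))) ∧
      ∀ (r : F) (d : ℚ), IsRoot r d → c r ≠ r → (AJIso p (EF A B F) ↔
        AJIso p (EF A B (IntermediateField.fixedField (Subgroup.zpowers c))) ∧
        AJIso p (ET A B d (IntermediateField.fixedField (Subgroup.zpowers c))))) ∧
    (¬ GroupCondition (F ≃ₐ[ℚ] F) → (AJIso p (EF A B F) ↔
      ∀ P : Subgroup (F ≃ₐ[ℚ] F), (Nat.card P).Prime →
        AJIso p (EF A B (IntermediateField.fixedField P)))) ∧
    (¬ AJIso p (EF A B F) → ∃ (d : ℚ) (M : Type) (_ : Field M) (_ : NumberField M), d ≠ 0 ∧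
      Nonempty (M →+* F) ∧ ¬ AJIso p (ET A B d M) ∧
      (∀ (d' : ℚ) (K : Type) [Field K] [NumberField K], d' ≠ 0 → Nonempty (K →+* M) →
        finrank ℚ K < finrank ℚ M → AJIso p (ET A B d' K)) ∧
      (∀ (ι : Type) (U : ι → Subgroup (M ≃ₐ[ℚ] M)) (r : ι → M) (d : ι → ℚ),
        (∀ i, IsRoot (r i) (d i)) → (∀ i, U i ≠ ⊥) → ¬ NormRelation ⊥ U r) ∧
      GroupCondition (M ≃ₐ[ℚ] M) ∧
      (∀ (c : M ≃ₐ[ℚ] M) (r : M) (d' : ℚ), c * c = 1 → IsRoot r d' → c r = r) ∧
      (IsGalois ℚ M → finrank ℚ M % 4 ≠ 2)) ∧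
    (Module.Finite ℚ_[p] (H1f p (EF A B F)) → 0 ≤ defect p (EF A B F) ∧
      (AJIso p (EF A B F) ↔ defect p (EF A B F) = 0) ∧
      ∀ (J : Type) [Fintype J] (H : J → Subgroup (F ≃ₐ[ℚ] F)) (r : J → F) (d : J → ℚ)
        (m : J → ℤ), (∀ j, IsRoot (r j) (d j)) → BrauerRelation H r m →
        ∑ j, m j * defect p (ET A B (d j) (IntermediateField.fixedField (H j))) = 0) ∧
    Module.Finite ℚ_[2] (H1f 2 (EF A B F)) := by
  have sub' : ∀ (A B : ℚ), 4 * A ^ 3 + 27 * B ^ 2 ≠ 0 → ∀ (F M : Type) [Field F] [NumberField F]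
      [Field M] [NumberField M], (M →+* F) → AJIso p (EF A B F) → AJIso p (EF A B M) :=
    fun A B hAB F M _ _ _ _ f h => aj_sub hAB f h
  have sub : ∀ (F M : Type) [Field F] [NumberField F] [Field M] [NumberField M], (M →+* F) →
      AJIso p (EF A B F) → AJIso p (EF A B M) := fun F M _ _ _ _ f h => aj_sub hAB f h
  have fix : ∀ (F : Type) [Field F] [NumberField F] (D : Subgroup (F ≃ₐ[ℚ] F)),
      AJIso p (EF A B F) → AJIso p (EF A B (IntermediateField.fixedField D)) :=
    fun F _ _ D h => sub F _ (algebraMap (IntermediateField.fixedField D) F) h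
  have tw : ∀ (F : Type) [Field F] [NumberField F] (r : F) (d : ℚ), IsRoot r d →
      (AJIso p (EF A B F) ↔ AJIso p (ET A B d F)) := fun F _ _ r d hr => aj_tw hAB hr.2 hr.1
  have twfix : ∀ (F : Type) [Field F] [NumberField F] (r : F) (d : ℚ), IsRoot r d →
      ∀ (D : Subgroup (F ≃ₐ[ℚ] F)), AJIso p (EF A B F) →
        AJIso p (ET A B d (IntermediateField.fixedField D)) :=
    fun F _ _ r d hr D h => sub' (d ^ 2 * A) (d ^ 3 * B) (disc_tw hAB (sq_ne hr.2 hr.1)) F _
      (algebraMap (IntermediateField.fixedField D) F) ((tw F r d hr).1 h)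
  refine ⟨⟨fun M _ _ hM h => sub F M hM.some h, tw F⟩, ?_, ?_, ?_, ?_, ?_, ?_⟩
  · intro ι H U r d hr hH
    refine ⟨fun h => aj_relx hAB F H U r d (fun i => (hr i).2) (fun i => (hr i).1) hH h,
      fun h1 => ⟨fun h i => twfix F (r i) (d i) (hr i) (U i) h, fun h => ?_⟩⟩
    subst h1
    exact rel_bot hAB F U r d hr hH h
  · intro c hc
    have key : AJIso p (EF A B (IntermediateField.fixedField (Subgroup.zpowers c))) →
        AJIso p (EF A B (IntermediateField.fixedField (Comms c))) → AJIso p (EF A B F) :=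
      fun h1 h2 => aj_comms hAB F hc h1 h2
    refine ⟨⟨fun h => ⟨fix F _ h, fix F _ h⟩, fun h => key h.1 h.2⟩, fun hm => ⟨fun h => fix F _ h,
      fun h => key h (sub _ _ (fixedHom ?_) h)⟩, fun r d hr hcr => ⟨fun h => ⟨fix F _ h,
        twfix F r d hr _ h⟩, fun h => ?_⟩⟩
    · rw [Subgroup.zpowers_le]
      exact hm
    · have ho : orderOf c = 2 := orderOf_eq_prime (by rw [pow_two, hc]) (by
        rintro rfl
        exact hcr rfl)
      exact aj_invol hAB hr.2 ho hcr h.1 h.2
  · intro hG
    refine ⟨fun h P _ => fix F P h, fun h => ?_⟩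
    by_contra hF
    exact hG (aj_structure hAB hF h)
  · intro hF
    classical
    have hex : ∃ n : ℕ, ∃ (d : ℚ) (M : Type) (_ : Field M) (_ : NumberField M), d ≠ 0 ∧
        Nonempty (M →+* F) ∧ ¬ AJIso p (ET A B d M) ∧ finrank ℚ M = n :=
      ⟨_, 1, F, _, _, one_ne_zero, ⟨RingHom.id F⟩, by rwa [et_one], rfl⟩
    obtain ⟨d, M, hM1, hM2, hd, ⟨f⟩, hM, hn⟩ := Nat.find_spec hex
    have hmin : ∀ (d' : ℚ) (K : Type) [Field K] [NumberField K], d' ≠ 0 → Nonempty (K →+* M) →
        finrank ℚ K < finrank ℚ M → AJIso p (ET A B d' K) := by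
      intro d' K _ _ hd' hK hlt
      by_contra hcon
      rw [hn] at hlt
      exact Nat.find_min hex hlt ⟨d', K, _, _, hd', ⟨f.comp hK.some⟩, hcon, rfl⟩
    have hdisc := disc_tw hAB hd
    refine ⟨d, M, hM1, hM2, hd, ⟨f⟩, hM, hmin, fun ι U r b hr hU hrel => ?_,
      aj_structure hdisc hM fun P hP =>
        hmin d _ hd ⟨algebraMap (IntermediateField.fixedField P) M⟩ (finrank_fixed_lt P hP),
      ?_⟩
    · refine hM (rel_bot hdisc M U r b hr hrel fun i => ?_)
      have h1 := hmin (b i * d) _ (mul_ne_zero (sq_ne (hr i).2 (hr i).1) hd)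
        ⟨algebraMap (IntermediateField.fixedField (U i)) M⟩ (fixed_lt (hU i))
      rwa [← et_et] at h1
    suffices key : ∀ (c : M ≃ₐ[ℚ] M) (r : M) (d' : ℚ), c * c = 1 → IsRoot r d' → c r = r by
      refine ⟨key, fun hgal h4 => ?_⟩
      obtain ⟨c, r, d', h1, h2, h3, h5⟩ := exists_root_moved h4
      exact h5 (key c r d' h1 ⟨h2, h3⟩)
    intro c r d' hc hr
    by_contra hcr
    have ho : orderOf c = 2 := orderOf_eq_prime (by rw [pow_two, hc]) (by
      rintro rfl
      exact hcr rfl)
    have hcard : (Nat.card (Subgroup.zpowers c)).Prime := by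
      rw [Nat.card_zpowers, ho]
      exact Nat.prime_two
    have h1 := hmin d _ hd ⟨algebraMap (IntermediateField.fixedField (Subgroup.zpowers c)) M⟩
      (finrank_fixed_lt _ hcard)
    have h2 := hmin (d' * d) _ (mul_ne_zero (sq_ne hr.2 hr.1) hd)
      ⟨algebraMap (IntermediateField.fixedField (Subgroup.zpowers c)) M⟩
      (finrank_fixed_lt _ hcard)
    rw [← et_et] at h2
    exact hM (aj_invol hdisc hr.2 ho hcr h1 h2)
  · intro hfin
    have h1 := defect_all hAB F hfin
    exact ⟨h1.1, h1.2.1, fun J _ H r d m hr hm =>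
      defectx hAB hfin H r d (fun j => (hr j).2) (fun j => (hr j).1) m hm⟩
  · exact ((h1f_iff hAB F).1).2 (fin_two hAB F)

end Pool.Agent.Results.MP_787500_nt.NormRelations
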