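import Mathlib
import Pool.Agent.X307.Ex
import Pool.Agent.Y682.YQ.Inr
import Pool.Agent.Y682.XD.Fin
import Pool.Agent.Y419.XD.Ram

/-!
# Abel–Jacobi isomorphisms onto Bloch–Kato Selmer groups of every dimension up to eight over infinitely
# many number fields

`E : y² = x³ + a x² + 16 c x`, `a = 1` modulo `4`, `c > 0`, `a < 0` or `a² < 64 c`, is an elliptic curve
over `ℚ` such that the rank of `E(ℚ)` is at least `ω(c) + ω(a² - 64 c) - 2`, where `ω` is the number of the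
prime factors.  For every totally real number field `K` of odd narrow class number with only one prime
above each prime factor of `c (a² - 64 c)` the 2-adic Abel–Jacobi map `ℚ₂ ⊗ E(K) → H¹_f(K, V₂ E)` is an
isomorphism, and the dimension is the rank of `E(ℚ)`.  For every `r ≤ 8` there is such a curve with
`rank E(ℚ) = r` for which this applies to all the layers `K` of the cyclotomic `ℤ₃`-extension of `ℚ`.
-/

set_option autoImplicit false

open NumberField IsDedekindDomain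

namespace Pool.Agent.Results.MP_787500_nt.PositiveRankTowers

open scoped TensorProduct

open Pool.Agent.Y682 (NCl)

open Pool.Agent.X307 (AJIso H1f V E om)

open Pool.Agent.TH841.SH.D (Pt)

/-- The 2-adic Abel–Jacobi map of `W` over `K` is an isomorphism
`ℚ₂ ⊗ W(K) → H¹_f(K, V₂ W)` of vector spaces of dimension `r` over `ℚ₂`, and `r` is the rank of `W(K)`. -/
def AJ (K : Type) [Field K] [NumberField K] (W : WeierstrassCurve K) (r : ℕ) : Prop :=
  AJIso 2 W ∧ Module.finrank ℤ (Pt W K) = r ∧ Module.finrank ℚ_[2] (H1f 2 W) = r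

/-- `a = 1` modulo `4`, `c > 0`, `a² ≠ 64 c`, and `a < 0` or `a² < 64 c`. -/
def Adm (a c : ℤ) : Prop := a % 4 = 1 ∧ 0 < c ∧ a ^ 2 ≠ 64 * c ∧ (a < 0 ∨ a ^ 2 < 64 * c)

/-- There is only one prime of `K` above each prime factor of `c (a² - 64 c)`. -/
def Unsplit (K : Type) [Field K] [NumberField K] (a c : ℤ) : Prop :=
  ∀ p : ℕ, p.Prime → (p : ℤ) ∣ c * (a ^ 2 - 64 * c) →
    ∀ v w : HeightOneSpectrum (𝓞 K), (p : 𝓞 K) ∈ v.asIdeal → (p : 𝓞 K) ∈ w.asIdeal → v = w

lemma aj_of {K : Type} [Field K] [NumberField K] [IsTotallyReal K] (hcl : Odd (Nat.card (NCl K)))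
    {a c : ℤ} (h : Adm a c) (hK : Unsplit K a c) {r : ℕ}
    (hr : r ≤ Module.finrank ℤ (Pool.Agent.Y682.MP (E ℚ a c)))
    (hom : om c + om (a ^ 2 - 64 * c) ≤ r + 2) : AJ K (E K a c) r := by
  obtain ⟨ha, hc, hD, ht⟩ := h
  obtain ⟨hf, hb⟩ := Pool.Agent.X307.sharp_bound K hcl ha hc hD ht hK
  have hT := Pool.Agent.X307.isT_E hc hD K
  have hmono := Pool.Agent.X307.rk_mono hc hD K
  have hrk : Pool.Agent.TH841.NF.D.rk (E K a c) =
    Module.finrank ℤ (Pool.Agent.Y682.MP (E K a c)) := rfl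
  rw [hrk] at hb
  obtain ⟨X, hX⟩ : ∃ X, X = Nat.card {x : Pool.Agent.TH841.NF.D.Sha (E K a c) // 2 • x = 0} :=
    ⟨_, rfl⟩
  rw [← hX] at hb
  have hX0 : 0 < X := by
    rw [hX]
    exact Nat.card_pos_iff.2 ⟨⟨⟨0, smul_zero 2⟩⟩, hf⟩
  have h1 : 2 ^ (om c + om (a ^ 2 - 64 * c)) ≤ 4 * 2 ^ r := by
    calc 2 ^ (om c + om (a ^ 2 - 64 * c)) ≤ 2 ^ (r + 2) := Nat.pow_le_pow_right (by norm_num) hom
      _ = 4 * 2 ^ r := by rw [pow_add]; ring
  have h2 : 2 ^ (Module.finrank ℤ (Pool.Agent.Y682.MP (E K a c))) * X ≤ 2 ^ r := by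
    have h3 := hb.trans h1
    have h4 : 4 * (2 ^ (Module.finrank ℤ (Pool.Agent.Y682.MP (E K a c))) * X) ≤ 4 * 2 ^ r := by
      rw [← mul_assoc]
      exact h3
    exact Nat.le_of_mul_le_mul_left h4 (by norm_num)
  have h5 : 2 ^ r ≤ 2 ^ (Module.finrank ℤ (Pool.Agent.Y682.MP (E K a c))) :=
    Nat.pow_le_pow_right (by norm_num) (hr.trans hmono)
  have hX1 : X = 1 := by
    have h6 : 2 ^ (Module.finrank ℤ (Pool.Agent.Y682.MP (E K a c))) * X ≤
        2 ^ (Module.finrank ℤ (Pool.Agent.Y682.MP (E K a c))) * 1 := by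
      rw [mul_one]
      exact h2.trans h5
    have h7 := Nat.le_of_mul_le_mul_left h6 (by positivity)
    omega
  have h8 : Module.finrank ℤ (Pool.Agent.Y682.MP (E K a c)) = r := by
    rw [hX1, mul_one] at h2
    have h9 := (Nat.pow_le_pow_iff_right (by norm_num : 1 < 2)).1 h2
    exact le_antisymm h9 (hr.trans hmono)
  have hprim : AddCommGroup.primaryComponent (Pool.Agent.TH841.NF.D.Sha (E K a c)) 2 = ⊥ := by
    apply Pool.Agent.Y682.comp_bot
    rw [← hX, hX1]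
    norm_num
  have hiso : AJIso 2 (E K a c) := by
    rw [Pool.Agent.X307.ajIso_two_iff hT]
    apply Pool.Agent.X307.v_zero 0
    intro k x hx
    have h9 : x ∈ AddCommGroup.primaryComponent (Pool.Agent.TH841.NF.D.Sha (E K a c)) 2 := ⟨k, hx⟩
    rw [hprim, AddSubgroup.mem_bot] at h9
    rw [h9, smul_zero]
  have h10 : Module.finrank ℤ (Pt (E K a c) K) = r := (Pool.Agent.X307.rk_eq _).trans h8
  refine ⟨hiso, h10, ?_⟩
  obtain ⟨Φ, -⟩ := hiso
  have hfg := Pool.Agent.X307.fg_pt hT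
  rw [← Φ.finrank_eq, Pool.Agent.X307.finrank_ten, h10]

lemma unsplit_Q (a c : ℤ) : Unsplit ℚ a c := by
  intro p hp _ v w hv hw
  obtain ⟨u, hu⟩ := Pool.Agent.Y500.XD.place p hp
  rw [(hu v).1 hv, (hu w).1 hw]

lemma ncl_Q : Odd (Nat.card (NCl ℚ)) := by
  have h : Nat.card (NCl ℚ) = 1 := by
    rw [Nat.card_eq_one_iff_unique]
    exact ⟨⟨fun x y => (Pool.Agent.Y500.XD.ncl_one x).trans (Pool.Agent.Y500.XD.ncl_one y).symm⟩,
      ⟨1⟩⟩
  rw [h]
  exact odd_one

lemma exists_of_good {r : ℕ} {a c : ℤ} (h : Pool.Agent.X307.Good r a c) :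
    ∃ a c : ℤ, Adm a c ∧ om c + om (a ^ 2 - 64 * c) = r + 2 ∧
      Module.finrank ℤ (Pt (E ℚ a c) ℚ) = r ∧
      ∀ (n : ℕ) (M : Type) [Field M] [NumberField M] [IsCyclotomicExtension {3 ^ (n + 1)} ℚ M]
      (K : IntermediateField ℚ M), Odd (Module.finrank ℚ K) → AJ K (E K a c) r := by
  obtain ⟨ha, hc, hD, ht, h1, h2, hr, h3⟩ := h
  have hadm : Adm a c := ⟨ha, hc, hD, ht⟩
  have hom : om c + om (a ^ 2 - 64 * c) = r + 2 := by rw [h1, h2]
  refine ⟨a, c, hadm, hom, (aj_of ncl_Q hadm (unsplit_Q a c) hr hom.le).2.1,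
    fun n M _ _ _ K hodd => ?_⟩
  obtain ⟨-, -, hN⟩ := Pool.Agent.Y682.XD.three_hyp n M K hodd
  have hz : NeZero (3 ^ (n + 1)) := ⟨pow_ne_zero _ (by norm_num)⟩
  have hreal : IsTotallyReal K := by
    obtain ⟨φ', -⟩ := Pool.Agent.Y682.XT.exists_phi (3 ^ (n + 1)) M
    have hre : Pool.Agent.Y682.XT.IsRe (3 ^ (n + 1)) M K := Pool.Agent.Y682.XT.re_of_odd hodd
    exact ⟨Pool.Agent.Y682.XT.real_place (q := 3 ^ (n + 1)) (φ := φ') hre⟩
  refine aj_of hN hadm (fun p hp hpd v w hv hw => ?_) hr hom.le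
  rcases h3 p hp hpd with h9 | h9
  · subst h9
    exact Pool.Agent.Y419.XD.s_ram 3 n Nat.prime_three M K v w hv hw
  · obtain ⟨u, -, hu⟩ := Pool.Agent.Y682.XT.place_unique hp
      (Pool.Agent.Y682.YQ.inert9 n M K hodd hp h9)
    rw [(hu v).1 hv, (hu w).1 hw]

/-- **Theorem.** (1) Let `E : y² = x³ + a x² + 16 c x`, `a = 1` modulo `4`, `c > 0`, `a² ≠ 64 c`, `a < 0` or
`a² < 64 c`, be a curve such that the rank of `E(ℚ)` is at least `ω(c) + ω(a² - 64 c) - 2`. Let `K` be a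
totally real number field of odd narrow class number with only one prime above each prime factor of
`c (a² - 64 c)`. Then the Abel–Jacobi map `ℚ₂ ⊗ E(K) → H¹_f(K, V₂ E)` is an isomorphism, and the
dimension of these spaces is the rank of `E(ℚ)`.
(2) For every `r ≤ 8` there is such a curve `E` with `rank E(ℚ) = r = ω(c) + ω(a² - 64 c) - 2` such that
for all the layers `K` of the cyclotomic `ℤ₃`-extension of `ℚ` (the subfields of odd degree of the
`3 ^ (n + 1)`-th cyclotomic fields) the Abel–Jacobi map `ℚ₂ ⊗ E(K) → H¹_f(K, V₂ E)` is an isomorphism of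
spaces of dimension `r`. -/
theorem result :
    (∀ a c : ℤ, Adm a c →
      om c + om (a ^ 2 - 64 * c) ≤ Module.finrank ℤ (Pt (E ℚ a c) ℚ) + 2 →
      ∀ (K : Type) [Field K] [NumberField K] [IsTotallyReal K], Odd (Nat.card (NCl K)) →
        Unsplit K a c → AJ K (E K a c) (Module.finrank ℤ (Pt (E ℚ a c) ℚ))) ∧
    (∀ r : ℕ, r ≤ 8 → ∃ a c : ℤ, Adm a c ∧ om c + om (a ^ 2 - 64 * c) = r + 2 ∧
      Module.finrank ℤ (Pt (E ℚ a c) ℚ) = r ∧
      ∀ (n : ℕ) (M : Type) [Field M] [NumberField M] [IsCyclotomicExtension {3 ^ (n + 1)} ℚ M]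
      (K : IntermediateField ℚ M), Odd (Module.finrank ℚ K) → AJ K (E K a c) r) := by
  refine ⟨fun a c h hr K _ _ _ hcl hK => aj_of hcl h hK (Pool.Agent.X307.rk_eq _).le hr,
    fun r hr => ?_⟩
  interval_cases r
  · exact exists_of_good Pool.Agent.X307.ex0
  · exact exists_of_good Pool.Agent.X307.ex1
  · exact exists_of_good Pool.Agent.X307.ex2
  · exact exists_of_good Pool.Agent.X307.ex3
  · exact exists_of_good Pool.Agent.X307.ex4
  · exact exists_of_good Pool.Agent.X307.ex5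
  · exact exists_of_good Pool.Agent.X307.ex6
  · exact exists_of_good Pool.Agent.X307.ex7
  · exact exists_of_good Pool.Agent.X307.ex8

end Pool.Agent.Results.MP_787500_nt.PositiveRankTowers
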