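import Mathlib
import Pool.Agent.X253.SF.Main
import Pool.Agent.Y667.BKP.Main

/-!
# Abel–Jacobi maps onto Bloch–Kato Selmer groups over all subfields of `ℚ(ω, ∛m₁, …, ∛m_n)`

`E_D : y² + D y = x³` (the curve `x³ + y³ = D`), where `D` is squarefree, prime to `3`, not `±1` modulo `9`,
and exactly one prime `q ≡ 2` modulo `3` divides `D`; `c = ∏ (1 - 3^{-i}) = 0.5601...`.

Let `S` be a finite set of positive integers, independent modulo cubes, with all prime factors `1` modulo
`9`, and `F = ℚ(ω, ∛m : m ∈ S)`, `ω` a third root of unity.  For at least the proportion `c ^ (3 ^ #S)` of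
the `D` prime to `S`, and for every number field `K` that embeds in `F` (`K` need not be a Galois extension
of `ℚ`): `E_D(K) ⊗ ℚ₃ = 0` and `H¹_f(K, V₃ E_D) = 0`.  So the 3-adic Abel–Jacobi map
`E_D(K) ⊗ ℚ₃ → H¹_f(K, V₃ E_D)` is an isomorphism, for all these fields `K` at the same time; for example for
`ℚ`, `ℚ(ω)`, `ℚ(∛m)` and `ℚ(ω, ∛m)` and more than `17 %` of the `D`.

`H1f 3 W` (`Pool.Agent.Y667.BKP.H1f`) is the group of the classes of the continuous cocycles of the
absolute Galois group with values in `V₃ W = T₃ W ⊗ ℚ₃` whose restriction to the completion at every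
place is in the image of the Kummer map; this is the condition of Bloch and Kato.

The proof: the weighted Laplacian criteria for the cubic twists of `E_D` over `ℚ(ω)` are asymptotically
independent (`X253/JC`); so for the proportion in the theorem all the twists of `E_D` by the characters of
`F / ℚ(ω)` have finitely many points and a trivial 3-primary part of `Ш` over `ℚ(ω)`; the corestriction
from `F` then bounds the exponent of the 3-primary part of `Ш(E_D / F)` (`X253/C3/Cor3`); and restriction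
followed by corestriction bounds it for all subfields (`X253/SF/Rs`, `X253/SF/Sub`).
-/

set_option autoImplicit false

namespace Pool.Agent.Results.MP_787500_nt.SubfieldsOfCubicTowers

open NumberField Filter
open Pool.Agent.TH841.NF.D (Sha)
open Pool.Agent.Y667.BKP (H1f)

/-- The curve `E_D : y² + D y = x³`. -/
def curve {K : Type} [Field K] (D : K) : WeierstrassCurve K := ⟨0, 0, D, 0, 0⟩

/-- `D` is cube-free, prime to `3`, not `±1` modulo `9`, and exactly one prime `q ≡ 2` modulo `3`
divides `D`. -/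
def InClass (D : ℕ) : Prop :=
  (D ≠ 0 ∧ ¬ 3 ∣ D ∧ ∀ p : ℕ, p.Prime → ¬ p ^ 3 ∣ D) ∧ D % 9 ≠ 1 ∧ D % 9 ≠ 8 ∧
    ∃ q : ℕ, q.Prime ∧ q % 3 = 2 ∧ q ∣ D ∧ ∀ p : ℕ, p.Prime → p ∣ D → p ≠ q → p % 3 = 1

open scoped Classical in
/-- The squarefree `D ≤ X` of the class that are prime to `m`. -/
noncomputable def family (m : ℕ) (X : ℕ) : Finset ℕ :=
  (Finset.Icc 1 X).filter fun D => Squarefree D ∧ InClass D ∧ D.Coprime m

open scoped Classical in
/-- The lower proportion of the `D` with `P D` among the squarefree `D` of the class that are prime to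
`m` is at least `r`. -/
def AtLeast (m : ℕ) (r : ℝ) (P : ℕ → Prop) : Prop :=
  ∀ b : ℝ, b < r → ∀ᶠ X : ℕ in atTop,
    b * ((family m X).card : ℝ) ≤ (((family m X).filter P).card : ℝ)

/-- The constant `∏ (1 - 3^{-i}) = 0.5601...`. -/
noncomputable def c : ℝ := ∏' i : ℕ, (1 - (1 / 3 : ℝ) ^ (i + 1))

/-- The elements of `S` are positive, and a product of powers of them is a cube only if all the
exponents are divisible by `3`. -/
def Independent (S : Finset ℕ) : Prop :=
  (∀ m ∈ S, m ≠ 0) ∧ ∀ e : ℕ → ℕ, (∃ n : ℕ, n ^ 3 = ∏ m ∈ S, m ^ e m) → ∀ m ∈ S, 3 ∣ e m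

/-- `F = ℚ(ω, ∛m : m ∈ S)`, `ω² + ω + 1 = 0`. -/
def Generated (F : Type) [Field F] [NumberField F] (S : Finset ℕ) : Prop :=
  ∃ (ω : F) (r : ℕ → F), ω ^ 2 + ω + 1 = 0 ∧ (∀ m ∈ S, r m ^ 3 = (m : F)) ∧
    ∀ L : Subfield F, ω ∈ L → (∀ m ∈ S, r m ∈ L) → L = ⊤

open Classical in
/-- The 3-adic Abel–Jacobi map of `W` over `K` is an isomorphism from `W(K) ⊗ ℚ₃` to `H¹_f(K, V₃ W)`, both
being zero. -/
def BothZero {K : Type} [Field K] [NumberField K] (W : WeierstrassCurve K) : Prop :=
  (∀ x : TensorProduct ℤ W.toAffine.Point ℚ_[3], x = 0) ∧ ∀ x : H1f 3 W, x = 0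

/-- For all the number fields `F = ℚ(ω, ∛m : m ∈ S)` and all the number fields `K` that embed in `F`, the
curve `E_D` over `K` has the property `BothZero`. -/
def AllSubfields (S : Finset ℕ) (D : ℕ) : Prop :=
  ∀ (F : Type) [Field F] [NumberField F], Generated F S →
    ∀ (K : Type) [Field K] [NumberField K], Nonempty (K →+* F) → BothZero (curve (D : K))

lemma bothZero_of {K : Type} [Field K] [NumberField K] {W : WeierstrassCurve K}
    (hfin : Finite W.toAffine.Point) (m : ℕ)
    (hS : ∀ (k : ℕ) (x : Sha W), 3 ^ k • x = 0 → 3 ^ m • x = 0) : BothZero W := by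
  classical
  exact ⟨Pool.Agent.Y667.BKP.tensor_zero 3, Pool.Agent.Y667.BKP.h1f_zero Nat.prime_three hfin m hS⟩

/-- **All subfields.** For every finite set `S` of positive integers, independent modulo cubes and with
all prime factors `1` modulo `9`: for at least the proportion `c ^ (3 ^ #S)` of the squarefree `D` of the
class prime to `S`, over every number field `K` that embeds in `ℚ(ω, ∛m : m ∈ S)` the 3-adic Abel–Jacobi map
of `E_D` is an isomorphism onto the Bloch–Kato Selmer group. -/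
theorem result (S : Finset ℕ) (hS : Independent S)
    (h9 : ∀ m ∈ S, ∀ p : ℕ, p.Prime → p ∣ m → p % 9 = 1) :
    AtLeast (∏ m ∈ S, m) (c ^ (3 ^ S.card)) (AllSubfields S) := by
  classical
  have hind : Pool.Agent.X253.RK.Ind (fun i : S => (i : ℕ)) := by
    intro e n hn i
    obtain ⟨e', he'⟩ : ∃ e' : ℕ → ℕ, ∀ i : S, e' i = (e i).val :=
      ⟨fun m => if h : m ∈ S then (e ⟨m, h⟩).val else 0, fun i => dif_pos i.2⟩
    have h1 := hS.2 e' ⟨n, by
      rw [hn, ← Finset.prod_coe_sort S (fun m => m ^ e' m)]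
      exact Finset.prod_congr rfl fun i _ => by rw [he']⟩ i.1 i.2
    rw [he'] at h1
    have h2 : ∀ a : ZMod 3, 3 ∣ a.val → a = 0 := by decide
    exact h2 _ h1
  -- one curve
  have hone : ∀ D : ℕ, InClass D → (∀ t ∈ Pool.Agent.X253.RK.TT S, ¬ t ∣ D) →
      Pool.Agent.X253.JC.GA (Pool.Agent.X253.RK.TT S)
        (Finset.univ.image (Pool.Agent.X253.RK.aT S)) D → AllSubfields S D := by
    intro D hD hTD hG F _ _ hF K _ _ hK
    obtain ⟨ω, r, hω, hr, hgen⟩ := hF
    obtain ⟨ι⟩ := hK
    let _ : Algebra K F := ι.toAlgebra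
    obtain ⟨h1, M, h2⟩ := Pool.Agent.X253.SF.mainS hS.1 h9 hind hD hTD hG F ω hω
      (fun i => r i.1) (fun i => hr i.1 i.2) (fun L h h' => hgen L h fun m hm => h' ⟨m, hm⟩) K
    exact bothZero_of h1 M h2
  -- the proportions
  have hprop : ∀ (T : Finset ℕ) (hT : ∀ t ∈ T, t.Prime ∧ t % 9 = 1) (m : ℕ)
      (hm : ∀ D : ℕ, D ≠ 0 → ((∀ t ∈ T, ¬ t ∣ D) ↔ D.Coprime m)) (A : Finset (T → Fin 3))
      (P : ℕ → Prop),
      (∀ D, InClass D → (∀ t ∈ T, ¬ t ∣ D) → Pool.Agent.X253.JC.GA T A D → P D) →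
      AtLeast m (c ^ A.card) P := by
    intro T hT m hm A P hP b hb
    have hfamily : ∀ X, family m X = Pool.Agent.X253.JC.BB T X := fun X => by
      unfold family Pool.Agent.X253.JC.BB
      refine Finset.filter_congr fun D hD => ?_
      have hD0 : D ≠ 0 := by
        rw [Finset.mem_Icc] at hD
        omega
      rw [← hm D hD0]
      rfl
    have hj := Pool.Agent.X253.JC.joint hT A
    have hev := (tendsto_order.1 hj).1 b hb
    filter_upwards [hev] with X hX
    have hsub : (Pool.Agent.X253.JC.BB T X).filter (Pool.Agent.X253.JC.GA T A) ⊆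
        (family m X).filter P := by
      intro D hD
      rw [Finset.mem_filter] at hD ⊢
      refine ⟨by rw [hfamily]; exact hD.1, ?_⟩
      have h1 := hD.1
      unfold Pool.Agent.X253.JC.BB at h1
      rw [Finset.mem_filter] at h1
      exact hP D h1.2.2.1 h1.2.2.2 hD.2
    have hcard := Finset.card_le_card hsub
    have hcard' : (((Pool.Agent.X253.JC.BB T X).filter (Pool.Agent.X253.JC.GA T A)).card : ℝ) ≤
        (((family m X).filter P).card : ℝ) := by exact_mod_cast hcard
    refine le_trans ?_ hcard'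
    rw [hfamily]
    rcases (Nat.cast_nonneg (α := ℝ) (Pool.Agent.X253.JC.BB T X).card).eq_or_lt with h0 | h0
    · rw [← h0, mul_zero]
      exact Nat.cast_nonneg _
    · exact ((lt_div_iff₀ h0).1 hX).le
  have hT : ∀ t ∈ Pool.Agent.X253.RK.TT S, t.Prime ∧ t % 9 = 1 := by
    intro t ht
    have hp := Nat.prime_of_mem_primeFactors ht
    obtain ⟨m, hm, hmt⟩ := (hp.prime.dvd_finsetProd_iff _).1 (Nat.dvd_of_mem_primeFactors ht)
    exact ⟨hp, h9 m hm t hp hmt⟩
  have hP0 : ∏ m ∈ S, m ≠ 0 := Finset.prod_ne_zero_iff.2 hS.1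
  have hcard : (Finset.univ.image (Pool.Agent.X253.RK.aT S)).card = 3 ^ S.card := by
    rw [Finset.card_image_of_injective _ (Pool.Agent.X253.RK.aT_inj hS.1 hind),
      Finset.card_univ, Fintype.card_fun, Fintype.card_fin, Fintype.card_coe]
  rw [← hcard]
  refine hprop _ hT _ (fun D hD0 => ?_) _ _ fun D hD hTD hG => hone D hD hTD hG
  constructor
  · intro h
    refine Nat.coprime_of_dvd fun p hp hpD hpm => ?_
    exact h p (Nat.mem_primeFactors.2 ⟨hp, hpm, hP0⟩) hpD
  · intro h t ht htD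
    have hp := Nat.prime_of_mem_primeFactors ht
    have h1 := Nat.dvd_gcd htD (Nat.dvd_of_mem_primeFactors ht)
    rw [h] at h1
    exact hp.one_lt.ne' (Nat.dvd_one.1 h1)

end Pool.Agent.Results.MP_787500_nt.SubfieldsOfCubicTowers
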